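import Pool.Agent.Lib.MP_95ac01_nt.Iface

/-!
# MP_95ac01_nt: auxiliary lemmas (Bezout)
-/

set_option autoImplicit false

namespace Cub.H21

open Finset Cub

noncomputable section

theorem bezout_finset {ι : Type*} [DecidableEq ι] (s : Finset ι) (f : ι → ℤ) :
    ∃ lam : ι → ℤ, ∑ i ∈ s, lam i * f i = ((s.gcd fun i => (f i).natAbs : ℕ) : ℤ) := by
  induction s using Finset.induction_on with
  | empty => exact ⟨0, by simp⟩
  | insert a s ha ih =>
    obtain ⟨lam, hlam⟩ := ih
    set g : ℕ := s.gcd fun i => (f i).natAbs with hg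
    have h1 : ((insert a s).gcd fun i => (f i).natAbs : ℕ) = Int.gcd (f a) (g : ℤ) := by
      rw [Finset.gcd_insert]
      simp [Int.gcd, hg]
      rfl
    rw [h1, Int.gcd_eq_gcd_ab]
    refine ⟨fun i => if i = a then Int.gcdA (f a) g else Int.gcdB (f a) g * lam i, ?_⟩
    rw [Finset.sum_insert ha]
    simp only [if_true]
    have h2 : ∑ i ∈ s, (if i = a then Int.gcdA (f a) g else Int.gcdB (f a) g * lam i) * f i =
        Int.gcdB (f a) g * ∑ i ∈ s, lam i * f i := by
      rw [Finset.mul_sum]
      refine Finset.sum_congr rfl fun i hi => ?_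
      have : i ≠ a := fun h => ha (h ▸ hi)
      rw [if_neg this]; ring
    rw [h2, hlam]; ring

/-- A linear form vanishing at `x` whose value at `y` is `gd x y`. -/
theorem exists_form (x y : Fin 4 → ℤ) : ∃ l : Fin 4 → ℤ, dt l x = 0 ∧ dt l y = (gd x y : ℤ) := by
  obtain ⟨lam, hlam⟩ := bezout_finset (univ : Finset (Fin 4 × Fin 4)) (fun p => mn x y p.1 p.2)
  refine ⟨fun k => ∑ p : Fin 4 × Fin 4, lam p *
    (x p.1 * (if k = p.2 then 1 else 0) - x p.2 * (if k = p.1 then 1 else 0)), ?_, ?_⟩
  · unfold dt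
    simp only [Finset.sum_mul]
    rw [Finset.sum_comm]
    refine Finset.sum_eq_zero fun p _ => ?_
    have : ∀ k : Fin 4, lam p * (x p.1 * (if k = p.2 then 1 else 0) -
        x p.2 * (if k = p.1 then 1 else 0)) * x k =
        (if k = p.2 then lam p * x p.1 * x k else 0) - (if k = p.1 then lam p * x p.2 * x k else 0) := by
      intro k; split_ifs <;> ring
    simp only [this, Finset.sum_sub_distrib, Finset.sum_ite_eq', Finset.mem_univ, if_true]
    ring
  · unfold dt
    simp only [Finset.sum_mul]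
    rw [Finset.sum_comm]
    have : gd x y = univ.gcd fun p : Fin 4 × Fin 4 => (mn x y p.1 p.2).natAbs := rfl
    rw [this, ← hlam]
    refine Finset.sum_congr rfl fun p _ => ?_
    have : ∀ k : Fin 4, lam p * (x p.1 * (if k = p.2 then 1 else 0) -
        x p.2 * (if k = p.1 then 1 else 0)) * y k =
        (if k = p.2 then lam p * x p.1 * y k else 0) - (if k = p.1 then lam p * x p.2 * y k else 0) := by
      intro k; split_ifs <;> ring
    simp only [this, Finset.sum_sub_distrib, Finset.sum_ite_eq', Finset.mem_univ, if_true, mn]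
    ring

/-- If `dt u x ≡ 1` modulo `d` and `d` divides the minors then `y ≡ (dt u y) x`. -/
theorem parallel_mod (d : ℤ) (x y u : Fin 4 → ℤ) (hu : d ∣ dt u x - 1)
    (h : ∀ i j, d ∣ mn x y i j) (i : Fin 4) : d ∣ y i - dt u y * x i := by
  have h1 : y i - dt u y * x i = -(dt u x - 1) * y i + ∑ j, u j * mn x y j i := by
    simp only [dt, mn, Fin.sum_univ_four]
    ring
  rw [h1]
  refine dvd_add (Dvd.dvd.mul_right ((dvd_neg).2 hu) _) (Finset.dvd_sum fun j _ => ?_)
  exact (h j i).mul_left _

end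

end Cub.H21
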