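import Pool.Agent.Lib.MP_95ac01_nt.H21.Bez

/-!
# MP_95ac01_nt: BP1 and BP3
-/

set_option autoImplicit false

namespace Cub.H21

open Finset Cub

theorem mem_resC {Q : ℕ} {c : Mon → ℤ} : c ∈ resC Q ↔ ∀ m, 0 ≤ c m ∧ c m < Q := by
  simp [resC, Fintype.mem_piFinset]

theorem card_resC (Q : ℕ) : (resC Q).card = Q ^ 20 := by
  unfold resC
  rw [Fintype.card_piFinset]
  simp only [Int.card_Ico, Finset.prod_const, Finset.card_univ, card_mon]
  congr 1

/-- Reduction modulo `Q`. -/
def red (Q : ℕ) (c : Mon → ℤ) : Mon → ℤ := fun m => c m % (Q : ℤ)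

theorem red_mem {Q : ℕ} (hQ : 1 ≤ Q) (c : Mon → ℤ) : red Q c ∈ resC Q := by
  rw [mem_resC]
  intro m
  exact ⟨Int.emod_nonneg _ (by omega), Int.emod_lt_of_pos _ (by omega)⟩

theorem dvd_red_sub (Q : ℕ) (c : Mon → ℤ) (m : Mon) : (Q : ℤ) ∣ red Q c m - c m := by
  have h : c m ≡ red Q c m [ZMOD Q] := by
    unfold red; exact (Int.mod_modEq _ _).symm
  exact Int.modEq_iff_dvd.1 h

theorem ev_red (Q : ℕ) (c : Mon → ℤ) (x : Fin 4 → ℤ) : (Q : ℤ) ∣ ev (red Q c) x - ev c x :=
  ev_congr_mod _ _ _ x x (dvd_red_sub Q c) (fun i => by simp)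

theorem red_eq {Q : ℕ} {c d : Mon → ℤ} (h : red Q c = red Q d) (m : Mon) : (Q : ℤ) ∣ c m - d m := by
  have h1 := congrFun h m
  have h2 : d m ≡ c m [ZMOD Q] := h1.symm
  exact Int.modEq_iff_dvd.1 h2

theorem res_eq {Q : ℕ} {a b : ℤ} (ha : 0 ≤ a ∧ a < Q) (hb : 0 ≤ b ∧ b < Q) (h : (Q : ℤ) ∣ a - b) :
    a = b := by
  have h4 : b ≡ a [ZMOD Q] := Int.modEq_iff_dvd.2 h
  unfold Int.ModEq at h4
  rw [Int.emod_eq_of_lt ha.1 ha.2, Int.emod_eq_of_lt hb.1 hb.2] at h4
  exact h4.symm

theorem resC_eq {Q : ℕ} {c d : Mon → ℤ} (hc : c ∈ resC Q) (hd : d ∈ resC Q)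
    (h : ∀ m, (Q : ℤ) ∣ c m - d m) : c = d := by
  rw [mem_resC] at hc hd
  funext m
  exact res_eq (hc m) (hd m) (h m)

theorem bp3 : Bp3Statement := by
  classical
  intro Q a b hQ ⟨u, hu⟩ ⟨v, hv⟩
  obtain ⟨l, hl1, hl2⟩ := exists_form a b
  set K := (resC Q).filter fun c => (Q : ℤ) ∣ ev c a ∧ (Q : ℤ) ∣ ev c b with hK
  set D := Nat.gcd Q (gd a b) with hD
  have hDpos : 0 < D := Nat.gcd_pos_of_pos_left _ (by omega)
  obtain ⟨E, hE⟩ : D ∣ Q := Nat.gcd_dvd_left _ _
  obtain ⟨e, he⟩ : D ∣ gd a b := Nat.gcd_dvd_right _ _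
  have hcop : Nat.Coprime E e := by
    have h1 : D * Nat.gcd E e = D * 1 := by
      rw [← Nat.gcd_mul_left, ← hE, ← he, mul_one]
    exact Nat.eq_of_mul_eq_mul_left hDpos h1
  -- values
  have hf1 : (Q : ℤ) ∣ ev (p3 u u u) a - 1 := by
    rw [ev_p3]
    have : dt u a * dt u a * dt u a - 1 = (dt u a - 1) * (dt u a ^ 2 + dt u a + 1) := by ring
    rw [this]; exact hu.mul_right _
  have hf2a : ev (p3 l v v) a = 0 := by rw [ev_p3, hl1]; ring
  have hf2b : (Q : ℤ) ∣ ev (p3 l v v) b - (gd a b : ℤ) := by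
    rw [ev_p3, hl2]
    have : (gd a b : ℤ) * dt v b * dt v b - (gd a b : ℤ) = (dt v b - 1) * ((dt v b + 1) * gd a b) := by
      ring
    rw [this]; exact hv.mul_right _
  let F : (Mon → ℤ) × (ℕ × ℕ) → (Mon → ℤ) := fun p =>
    red Q (p.1 + (p.2.1 : ℤ) • p3 u u u + (p.2.2 : ℤ) • p3 l v v)
  have hinj : Set.InjOn F ↑(K ×ˢ (range Q ×ˢ range E)) := by
    rintro ⟨f, r, s⟩ hp ⟨f', r', s'⟩ hp' hF
    simp only [coe_product, Set.mem_prod, mem_coe, mem_range, hK, mem_filter] at hp hp'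
    obtain ⟨⟨hf, hfa, hfb⟩, hr, hs⟩ := hp
    obtain ⟨⟨hf', hfa', hfb'⟩, hr', hs'⟩ := hp'
    have h1 := red_eq hF
    have h2 : ∀ x, (Q : ℤ) ∣ (ev f x + r * ev (p3 u u u) x + s * ev (p3 l v v) x) -
        (ev f' x + r' * ev (p3 u u u) x + s' * ev (p3 l v v) x) := by
      intro x
      have := ev_congr_mod (Q : ℤ) _ _ x x h1 (fun i => by simp)
      simpa only [ev_add, ev_smul] using this
    have hr0 : (Q : ℤ) ∣ (r : ℤ) - r' := by
      have h3 := h2 a
      rw [hf2a] at h3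
      have e1 : (r : ℤ) - r' = ((ev f a + r * ev (p3 u u u) a + s * 0) -
        (ev f' a + r' * ev (p3 u u u) a + s' * 0)) - ev f a + ev f' a -
          (ev (p3 u u u) a - 1) * (r - r') := by ring
      rw [e1]
      exact dvd_sub (dvd_add (dvd_sub h3 hfa) hfa') (hf1.mul_right _)
    have hrr : r = r' := by
      have := res_eq (Q := Q) ⟨by positivity, by exact_mod_cast hr⟩ ⟨by positivity, by exact_mod_cast hr'⟩ hr0
      exact_mod_cast this
    subst hrr
    have hs0 : (Q : ℤ) ∣ ((s : ℤ) - s') * gd a b := by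
      have h3 := h2 b
      have e1 : ((s : ℤ) - s') * gd a b = ((ev f b + r * ev (p3 u u u) b + s * ev (p3 l v v) b) -
        (ev f' b + r * ev (p3 u u u) b + s' * ev (p3 l v v) b)) - ev f b + ev f' b -
          (ev (p3 l v v) b - gd a b) * (s - s') := by ring
      rw [e1]
      exact dvd_sub (dvd_add (dvd_sub h3 hfb) hfb') (hf2b.mul_right _)
    have hs1 : (E : ℤ) ∣ (s : ℤ) - s' := by
      rw [hE, he] at hs0
      push_cast at hs0
      have h5 : (D : ℤ) * E ∣ (D : ℤ) * (((s : ℤ) - s') * e) := by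
        have : (D : ℤ) * (((s : ℤ) - s') * e) = ((s : ℤ) - s') * (D * e) := by ring
        rw [this]; exact hs0
      have h6 : (E : ℤ) ∣ ((s : ℤ) - s') * e :=
        (mul_dvd_mul_iff_left (by exact_mod_cast hDpos.ne')).1 h5
      exact (Int.isCoprime_iff_gcd_eq_one.2 (by simpa [Int.gcd] using hcop)).dvd_of_dvd_mul_right h6
    have hss : s = s' := by
      have := res_eq (Q := E) ⟨by positivity, by exact_mod_cast hs⟩ ⟨by positivity, by exact_mod_cast hs'⟩ hs1
      exact_mod_cast this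
    subst hss
    have hff : f = f' := by
      refine resC_eq hf hf' fun m => ?_
      have := h1 m
      simpa using this
    subst hff
    rfl
  have hmaps : ∀ p ∈ K ×ˢ (range Q ×ˢ range E), F p ∈ resC Q := fun p _ => red_mem hQ _
  have hcard := Finset.card_le_card_of_injOn F hmaps hinj
  rw [card_product, card_product, card_range, card_range, card_resC] at hcard
  -- K * (Q * E) ≤ Q^20
  have h7 : (K.card * (Q * E)) * D ≤ Q ^ 20 * D := Nat.mul_le_mul_right _ hcard
  have h8 : (K.card * (Q * E)) * D = K.card * Q ^ 2 := by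
    have : Q * E * D = Q ^ 2 := by
      conv_lhs => rw [mul_assoc, mul_comm E D, ← hE]
      ring
    rw [mul_assoc, this]
  rw [h8] at h7
  have h9 : K.card * Q ^ 2 ≤ (Q ^ 18 * D) * Q ^ 2 := by
    calc K.card * Q ^ 2 ≤ Q ^ 20 * D := h7
      _ = (Q ^ 18 * D) * Q ^ 2 := by ring
  exact Nat.le_of_mul_le_mul_right h9 (by positivity)

theorem bp1 : Bp1Statement := by
  classical
  intro Q a hQ ⟨u, hu⟩
  set K := (resC Q).filter fun c => (Q : ℤ) ∣ ev c a with hK
  have hf1 : (Q : ℤ) ∣ ev (p3 u u u) a - 1 := by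
    rw [ev_p3]
    have : dt u a * dt u a * dt u a - 1 = (dt u a - 1) * (dt u a ^ 2 + dt u a + 1) := by ring
    rw [this]; exact hu.mul_right _
  have hle : K.card * Q ≤ Q ^ 20 := by
    let F : (Mon → ℤ) × ℕ → (Mon → ℤ) := fun p => red Q (p.1 + (p.2 : ℤ) • p3 u u u)
    have hinj : Set.InjOn F ↑(K ×ˢ range Q) := by
      rintro ⟨f, r⟩ hp ⟨f', r'⟩ hp' hF
      simp only [coe_product, Set.mem_prod, mem_coe, mem_range, hK, mem_filter] at hp hp'
      obtain ⟨⟨hf, hfa⟩, hr⟩ := hp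
      obtain ⟨⟨hf', hfa'⟩, hr'⟩ := hp'
      have h1 := red_eq hF
      have h2 : (Q : ℤ) ∣ (ev f a + r * ev (p3 u u u) a) - (ev f' a + r' * ev (p3 u u u) a) := by
        have := ev_congr_mod (Q : ℤ) _ _ a a h1 (fun i => by simp)
        simpa only [ev_add, ev_smul] using this
      have hr0 : (Q : ℤ) ∣ (r : ℤ) - r' := by
        have e1 : (r : ℤ) - r' = ((ev f a + r * ev (p3 u u u) a) -
          (ev f' a + r' * ev (p3 u u u) a)) - ev f a + ev f' a -
            (ev (p3 u u u) a - 1) * (r - r') := by ring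
        rw [e1]
        exact dvd_sub (dvd_add (dvd_sub h2 hfa) hfa') (hf1.mul_right _)
      have hrr : r = r' := by
        have := res_eq (Q := Q) ⟨by positivity, by exact_mod_cast hr⟩
          ⟨by positivity, by exact_mod_cast hr'⟩ hr0
        exact_mod_cast this
      subst hrr
      have hff : f = f' := by
        refine resC_eq hf hf' fun m => ?_
        have := h1 m
        simpa using this
      subst hff
      rfl
    have hcard := Finset.card_le_card_of_injOn F (fun p _ => red_mem hQ _) hinj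
    rwa [card_product, card_range, card_resC] at hcard
  have hge : Q ^ 20 ≤ K.card * Q := by
    let F : (Mon → ℤ) → (Mon → ℤ) × ℕ := fun c =>
      (red Q (c - (ev c a) • p3 u u u), (ev c a % (Q : ℤ)).toNat)
    have hmaps : ∀ c ∈ resC Q, F c ∈ K ×ˢ range Q := by
      intro c _
      have hnn : 0 ≤ ev c a % (Q : ℤ) := Int.emod_nonneg _ (by omega)
      have hlt : ev c a % (Q : ℤ) < Q := Int.emod_lt_of_pos _ (by omega)
      simp only [mem_product, mem_range, F, hK, mem_filter]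
      refine ⟨⟨red_mem hQ _, ?_⟩, by omega⟩
      have h1 := ev_red Q (c - (ev c a) • p3 u u u) a
      have h2 : (Q : ℤ) ∣ ev (c - (ev c a) • p3 u u u) a := by
        rw [ev_sub, ev_smul]
        have : ev c a - ev c a * ev (p3 u u u) a = -((ev (p3 u u u) a - 1) * ev c a) := by ring
        rw [this]; exact (dvd_neg).2 (hf1.mul_right _)
      have := dvd_add h1 h2
      simpa using this
    have hinj : Set.InjOn F ↑(resC Q) := by
      intro c hc d hd hF
      simp only [F, Prod.mk.injEq] at hF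
      obtain ⟨h1, h2⟩ := hF
      have hnn : 0 ≤ ev c a % (Q : ℤ) := Int.emod_nonneg _ (by omega)
      have hnn' : 0 ≤ ev d a % (Q : ℤ) := Int.emod_nonneg _ (by omega)
      have h3 : ev c a % (Q : ℤ) = ev d a % (Q : ℤ) := by omega
      have h4 : (Q : ℤ) ∣ ev c a - ev d a := by
        have : ev d a ≡ ev c a [ZMOD Q] := h3.symm
        exact Int.modEq_iff_dvd.1 this
      have h5 := red_eq h1
      refine resC_eq hc hd fun m => ?_
      have h6 := h5 m
      simp only [Pi.sub_apply, Pi.smul_apply, smul_eq_mul] at h6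
      have : c m - d m = (c m - ev c a * p3 u u u m - (d m - ev d a * p3 u u u m)) +
        (ev c a - ev d a) * p3 u u u m := by ring
      rw [this]
      exact dvd_add h6 (h4.mul_right _)
    have hcard := Finset.card_le_card_of_injOn F hmaps hinj
    rwa [card_product, card_range, card_resC] at hcard
  have h : K.card * Q = Q ^ 19 * Q := le_antisymm (by rw [← pow_succ]; exact hle) (by rw [← pow_succ]; exact hge)
  exact Nat.eq_of_mul_eq_mul_right (by omega) h

end Cub.H21
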