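import Pool.Agent.Lib.MP_95ac01_nt.H21.Crt

/-!
# MP_95ac01_nt: BP2 and BP4
-/

set_option autoImplicit false

namespace Cub.H21

open Finset Cub

/-- Tail of the series of inverse squares. -/
theorem tail_sq (S : Finset ℕ) (w : ℕ) (hw : 1 ≤ w) (hS : ∀ d ∈ S, w < d) :
    ∑ d ∈ S, ((d : ℝ) ^ 2)⁻¹ ≤ 1 / w := by
  set n := max w (S.sup id) with hn
  have hsub : S ⊆ Ioc w n := by
    intro d hd
    rw [mem_Ioc]
    refine ⟨hS d hd, ?_⟩
    exact le_trans (Finset.le_sup (f := id) hd) (le_max_right _ _)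
  calc ∑ d ∈ S, ((d : ℝ) ^ 2)⁻¹ ≤ ∑ d ∈ Ioc w n, ((d : ℝ) ^ 2)⁻¹ :=
        Finset.sum_le_sum_of_subset_of_nonneg hsub fun _ _ _ => by positivity
    _ ≤ (w : ℝ)⁻¹ - (n : ℝ)⁻¹ := sum_Ioc_inv_sq_le_sub (by omega) (le_max_left _ _)
    _ ≤ 1 / w := by
        rw [one_div]
        have : (0 : ℝ) ≤ (n : ℝ)⁻¹ := by positivity
        linarith

theorem exists_prime_of_not_umod (Q : ℕ) (a : Fin 4 → ℤ) (h : ¬ UMod Q a) :
    ∃ p : ℕ, p.Prime ∧ p ∣ Q ∧ ∀ i, (p : ℤ) ∣ a i := by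
  obtain ⟨lam, hlam⟩ := bezout_finset (univ : Finset (Fin 4)) a
  set g : ℕ := univ.gcd fun i => (a i).natAbs with hg
  by_cases h1 : Nat.gcd g Q = 1
  · exfalso
    apply h
    have : Int.gcd (g : ℤ) (Q : ℤ) = 1 := by simpa [Int.gcd] using h1
    obtain ⟨α, β, hab⟩ := Int.isCoprime_iff_gcd_eq_one.2 this
    refine ⟨fun i => α * lam i, ⟨-β, ?_⟩⟩
    have e1 : dt (fun i => α * lam i) a = α * ∑ i, lam i * a i := by
      unfold dt; rw [Finset.mul_sum]; exact Finset.sum_congr rfl fun i _ => by ring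
    rw [e1, hlam]
    linear_combination hab
  · obtain ⟨p, hp, hpd⟩ := Nat.exists_prime_and_dvd h1
    refine ⟨p, hp, hpd.trans (Nat.gcd_dvd_right _ _), fun i => ?_⟩
    have : p ∣ (a i).natAbs := (hpd.trans (Nat.gcd_dvd_left _ _)).trans
      (Finset.gcd_dvd (f := fun i => (a i).natAbs) (Finset.mem_univ i))
    exact Int.natCast_dvd.2 this

theorem card_resid (Q : ℕ) : (resid Q).card = Q ^ 4 := by
  unfold resid
  rw [Fintype.card_piFinset]
  simp only [Int.card_Ico, Finset.prod_const, Finset.card_univ, Fintype.card_fin]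
  congr 1

/-- Number of residues with a divisibility condition. -/
theorem card_div (Q d : ℕ) (hQ : 1 ≤ Q) (hd : d ∣ Q) (S : Finset (Fin 4 → ℤ)) (N : ℕ)
    (f : (Fin 4 → ℤ) → ℕ) (hS : S ⊆ resid Q) (hf : ∀ b ∈ S, f b < N)
    (hdet : ∀ b ∈ S, ∀ b' ∈ S, f b = f b' → ∀ i, (d : ℤ) ∣ b i - b' i) :
    S.card ≤ N * (Q / d) ^ 4 := by
  classical
  have hd0 : 0 < d := Nat.pos_of_dvd_of_pos hd (by omega)
  let F : (Fin 4 → ℤ) → ℕ × (Fin 4 → ℤ) := fun b => (f b, fun i => b i / d)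
  have hmaps : ∀ b ∈ S, F b ∈ range N ×ˢ resid (Q / d) := by
    intro b hb
    have hb' := mem_resid.1 (hS hb)
    simp only [F, mem_product, mem_range, mem_resid]
    refine ⟨hf b hb, fun i => ⟨Int.ediv_nonneg (hb' i).1 (by positivity), ?_⟩⟩
    refine Int.ediv_lt_of_lt_mul (by exact_mod_cast hd0) ?_
    have : ((Q / d : ℕ) : ℤ) * d = Q := by exact_mod_cast Nat.div_mul_cancel hd
    rw [this]; exact (hb' i).2
  have hinj : Set.InjOn F ↑S := by
    intro b hb b' hb' hF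
    simp only [F, Prod.mk.injEq] at hF
    obtain ⟨h1, h2⟩ := hF
    have h3 := hdet b hb b' hb' h1
    funext i
    have h4 : b i / (d : ℤ) = b' i / (d : ℤ) := congrFun h2 i
    have h5 : b i % (d : ℤ) = b' i % (d : ℤ) := by
      have : b' i ≡ b i [ZMOD d] := Int.modEq_iff_dvd.2 (h3 i)
      exact this.symm
    rw [← Int.mul_ediv_add_emod (b i) d, ← Int.mul_ediv_add_emod (b' i) d, h4, h5]
  have := Finset.card_le_card_of_injOn F hmaps hinj
  rwa [card_product, card_range, card_resid] at this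

theorem bp2 : Bp2Statement := by
  classical
  intro Q w hQ hw hpr
  set S := Q.divisors.filter fun d => w < d with hS
  have hsub : resid Q ⊆ primRes Q ∪ S.biUnion fun d => (resid Q).filter fun a => ∀ i, (d : ℤ) ∣ a i := by
    intro a ha
    by_cases h : UMod Q a
    · exact mem_union_left _ (by simp [primRes, ha, h])
    · obtain ⟨p, hp, hpQ, hpa⟩ := exists_prime_of_not_umod Q a h
      refine mem_union_right _ (mem_biUnion.2 ⟨p, ?_, ?_⟩)
      · rw [hS, mem_filter, Nat.mem_divisors]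
        exact ⟨⟨hpQ, by omega⟩, hpr p hp hpQ⟩
      · rw [mem_filter]; exact ⟨ha, hpa⟩
  have h1 : Q ^ 4 ≤ (primRes Q).card + ∑ d ∈ S, (Q / d) ^ 4 := by
    rw [← card_resid Q]
    refine (card_le_card hsub).trans ((card_union_le _ _).trans ?_)
    refine Nat.add_le_add_left (card_biUnion_le.trans (Finset.sum_le_sum fun d hd => ?_)) _
    rw [hS, mem_filter, Nat.mem_divisors] at hd
    have := card_div Q d hQ hd.1.1 ((resid Q).filter fun a => ∀ i, (d : ℤ) ∣ a i) 1 (fun _ => 0)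
      (filter_subset _ _) (fun _ _ => by norm_num) (fun b hb b' hb' _ i => by
        rw [mem_filter] at hb hb'
        exact dvd_sub (hb.2 i) (hb'.2 i))
    rwa [one_mul] at this
  have h2 : (Q : ℝ) ^ 4 ≤ (primRes Q).card + ∑ d ∈ S, ((Q / d : ℕ) : ℝ) ^ 4 := by exact_mod_cast h1
  have h3 : ∑ d ∈ S, ((Q / d : ℕ) : ℝ) ^ 4 ≤ (Q : ℝ) ^ 4 * (1 / w) := by
    calc ∑ d ∈ S, ((Q / d : ℕ) : ℝ) ^ 4 ≤ ∑ d ∈ S, (Q : ℝ) ^ 4 * ((d : ℝ) ^ 2)⁻¹ := by
          refine Finset.sum_le_sum fun d hd => ?_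
          rw [hS, mem_filter, Nat.mem_divisors] at hd
          have hd0 : 0 < d := by omega
          rw [Nat.cast_div hd.1.1 (by positivity), div_pow, div_eq_mul_inv]
          refine mul_le_mul_of_nonneg_left ?_ (by positivity)
          refine inv_anti₀ (by positivity) ?_
          have : (1 : ℝ) ≤ d := by exact_mod_cast hd0
          exact pow_le_pow_right₀ this (by norm_num)
      _ = (Q : ℝ) ^ 4 * ∑ d ∈ S, ((d : ℝ) ^ 2)⁻¹ := by rw [Finset.mul_sum]
      _ ≤ (Q : ℝ) ^ 4 * (1 / w) := by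
          refine mul_le_mul_of_nonneg_left (tail_sq S w hw fun d hd => ?_) (by positivity)
          rw [hS, mem_filter] at hd; exact hd.2
  have : (Q : ℝ) ^ 4 * (1 - 1 / w) = (Q : ℝ) ^ 4 - (Q : ℝ) ^ 4 * (1 / w) := by ring
  rw [this]; linarith

theorem bp4 : Bp4Statement := by
  classical
  intro Q w a hQ hw hpr ⟨u, hu⟩
  have hcount : ∀ d ∈ Q.divisors,
      (((primRes Q).filter fun b => d ∣ gd a b).card : ℝ) * (Nat.totient d : ℝ) ≤
        (Q : ℝ) ^ 4 * ((d : ℝ) ^ 2)⁻¹ := by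
    intro d hd
    rw [Nat.mem_divisors] at hd
    have hd0 : 0 < d := Nat.pos_of_dvd_of_pos hd.1 (by omega)
    have hud : (d : ℤ) ∣ dt u a - 1 := (Int.natCast_dvd_natCast.2 hd.1).trans hu
    have h1 := card_div Q d hQ hd.1 ((primRes Q).filter fun b => d ∣ gd a b) d
      (fun b => (dt u b % (d : ℤ)).toNat) (fun b hb => by
        rw [mem_filter, primRes, mem_filter] at hb; exact hb.1.1) (fun b _ => by
        have h5 : 0 ≤ dt u b % (d : ℤ) := Int.emod_nonneg _ (by omega)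
        have h6 : dt u b % (d : ℤ) < d := Int.emod_lt_of_pos _ (by omega)
        show (dt u b % (d : ℤ)).toNat < d
        omega) (fun b hb b' hb' h i => by
        rw [mem_filter] at hb hb'
        have h5 : 0 ≤ dt u b % (d : ℤ) := Int.emod_nonneg _ (by omega)
        have h5' : 0 ≤ dt u b' % (d : ℤ) := Int.emod_nonneg _ (by omega)
        have h7 : dt u b % (d : ℤ) = dt u b' % (d : ℤ) := by
          have h' : (dt u b % (d : ℤ)).toNat = (dt u b' % (d : ℤ)).toNat := h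
          omega
        have h8 : (d : ℤ) ∣ dt u b - dt u b' := by
          have : dt u b' ≡ dt u b [ZMOD d] := h7.symm
          exact Int.modEq_iff_dvd.1 this
        have h9 := parallel_mod (d : ℤ) a b u hud
          (fun i j => (Int.natCast_dvd_natCast.2 hb.2).trans (gd_dvd a b i j)) i
        have h10 := parallel_mod (d : ℤ) a b' u hud
          (fun i j => (Int.natCast_dvd_natCast.2 hb'.2).trans (gd_dvd a b' i j)) i
        have : b i - b' i = (b i - dt u b * a i) - (b' i - dt u b' * a i) +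
          (dt u b - dt u b') * a i := by ring
        rw [this]
        exact dvd_add (dvd_sub h9 h10) (h8.mul_right _))
    have h2 : (((primRes Q).filter fun b => d ∣ gd a b).card : ℝ) ≤ d * ((Q : ℝ) / d) ^ 4 := by
      have : (((primRes Q).filter fun b => d ∣ gd a b).card : ℝ) ≤
          ((d * (Q / d) ^ 4 : ℕ) : ℝ) := by exact_mod_cast h1
      rw [Nat.cast_mul, Nat.cast_pow, Nat.cast_div hd.1 (by positivity)] at this
      exact this
    have h3 : (Nat.totient d : ℝ) ≤ d := by exact_mod_cast Nat.totient_le d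
    have hdR : (0 : ℝ) < d := by exact_mod_cast hd0
    calc (((primRes Q).filter fun b => d ∣ gd a b).card : ℝ) * (Nat.totient d : ℝ)
        ≤ (d * ((Q : ℝ) / d) ^ 4) * d := mul_le_mul h2 h3 (by positivity) (by positivity)
      _ = (Q : ℝ) ^ 4 * ((d : ℝ) ^ 2)⁻¹ := by field_simp
  have hgcd : ∀ b, ((Nat.gcd Q (gd a b) : ℕ) : ℝ) =
      ∑ d ∈ Q.divisors, if d ∣ gd a b then (Nat.totient d : ℝ) else 0 := by
    intro b
    rw [← Finset.sum_filter]
    have h1 : Q.divisors.filter (fun d => d ∣ gd a b) = (Nat.gcd Q (gd a b)).divisors := by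
      ext d
      rw [mem_filter, Nat.mem_divisors, Nat.mem_divisors, Nat.dvd_gcd_iff]
      have : Nat.gcd Q (gd a b) ≠ 0 := (Nat.gcd_pos_of_pos_left _ (by omega)).ne'
      constructor
      · rintro ⟨⟨h1, _⟩, h2⟩; exact ⟨⟨h1, h2⟩, this⟩
      · rintro ⟨⟨h1, h2⟩, _⟩; exact ⟨⟨h1, by omega⟩, h2⟩
    rw [h1]
    have := Nat.sum_totient (Nat.gcd Q (gd a b))
    exact_mod_cast this.symm
  calc ∑ b ∈ primRes Q, ((Nat.gcd Q (gd a b) : ℕ) : ℝ)
      = ∑ b ∈ primRes Q, ∑ d ∈ Q.divisors, if d ∣ gd a b then (Nat.totient d : ℝ) else 0 :=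
        Finset.sum_congr rfl fun b _ => hgcd b
    _ = ∑ d ∈ Q.divisors, ∑ b ∈ primRes Q, if d ∣ gd a b then (Nat.totient d : ℝ) else 0 :=
        Finset.sum_comm
    _ = ∑ d ∈ Q.divisors, (((primRes Q).filter fun b => d ∣ gd a b).card : ℝ) * (Nat.totient d : ℝ) := by
        refine Finset.sum_congr rfl fun d _ => ?_
        rw [← Finset.sum_filter, Finset.sum_const, nsmul_eq_mul]
    _ ≤ ∑ d ∈ Q.divisors, (Q : ℝ) ^ 4 * ((d : ℝ) ^ 2)⁻¹ := Finset.sum_le_sum hcount
    _ = (Q : ℝ) ^ 4 * ∑ d ∈ Q.divisors, ((d : ℝ) ^ 2)⁻¹ := by rw [Finset.mul_sum]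
    _ ≤ (Q : ℝ) ^ 4 * (1 + 1 / w) := by
        refine mul_le_mul_of_nonneg_left ?_ (by positivity)
        have h1 : (1 : ℕ) ∈ Q.divisors := by simp; omega
        rw [← Finset.add_sum_erase _ _ h1]
        have : ∑ d ∈ Q.divisors.erase 1, ((d : ℝ) ^ 2)⁻¹ ≤ 1 / w := by
          refine tail_sq _ w hw fun d hd => ?_
          rw [mem_erase, Nat.mem_divisors] at hd
          obtain ⟨p, hp, hpd⟩ := Nat.exists_prime_and_dvd hd.1
          have h2 := hpr p hp (hpd.trans hd.2.1)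
          have h3 := Nat.le_of_dvd (Nat.pos_of_dvd_of_pos hd.2.1 (by omega)) hpd
          omega
        simp only [Nat.cast_one, one_pow, inv_one]
        linarith

end Cub.H21
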