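import Pool.Agent.Lib.MP_95ac01_nt.H21.Bp

/-!
# MP_95ac01_nt: CRT
-/

set_option autoImplicit false

namespace Cub.H21

open Finset Cub

theorem mem_resid {Q : ℕ} {c : Fin 4 → ℤ} : c ∈ resid Q ↔ ∀ m, 0 ≤ c m ∧ c m < Q := by
  simp [resid, Fintype.mem_piFinset]

theorem dt_congr (q : ℤ) (u u' x x' : Fin 4 → ℤ) (hu : ∀ i, q ∣ u i - u' i)
    (hx : ∀ i, q ∣ x i - x' i) : q ∣ dt u x - dt u' x' := by
  unfold dt
  rw [← Finset.sum_sub_distrib]
  refine Finset.dvd_sum fun i _ => ?_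
  have : u i * x i - u' i * x' i = (u i - u' i) * x i + (x i - x' i) * u' i := by ring
  rw [this]
  exact dvd_add ((hu i).mul_right _) ((hx i).mul_right _)

theorem dvd_emod_sub (Q : ℕ) (a : ℤ) : (Q : ℤ) ∣ a % (Q : ℤ) - a := by
  have h : a ≡ a % (Q : ℤ) [ZMOD Q] := (Int.mod_modEq _ _).symm
  exact Int.modEq_iff_dvd.1 h

theorem crt : CrtStatement := by
  classical
  intro Q₁ Q₂ c h1 h2 hcop
  obtain ⟨α, β, hab⟩ : ∃ α β : ℤ, α * Q₁ + β * Q₂ = 1 := by
    have := Int.isCoprime_iff_gcd_eq_one.2 (show Int.gcd (Q₁ : ℤ) (Q₂ : ℤ) = 1 by simpa [Int.gcd] using hcop)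
    exact this
  let comb : (Fin 4 → ℤ) → (Fin 4 → ℤ) → Fin 4 → ℤ := fun a b i => a i * (β * Q₂) + b i * (α * Q₁)
  have c1 : ∀ a b i, (Q₁ : ℤ) ∣ comb a b i - a i := by
    intro a b i
    have : comb a b i - a i = Q₁ * (α * (b i - a i)) := by
      simp only [comb]; linear_combination (a i) * hab
    rw [this]; exact dvd_mul_right _ _
  have c2 : ∀ a b i, (Q₂ : ℤ) ∣ comb a b i - b i := by
    intro a b i
    have : comb a b i - b i = Q₂ * (β * (a i - b i)) := by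
      simp only [comb]; linear_combination (b i) * hab
    rw [this]; exact dvd_mul_right _ _
  let F : (Fin 4 → ℤ) × (Fin 4 → ℤ) → (Fin 4 → ℤ) := fun p i => comb p.1 p.2 i % ((Q₁ * Q₂ : ℕ) : ℤ)
  have d1 : (Q₁ : ℤ) ∣ ((Q₁ * Q₂ : ℕ) : ℤ) := by push_cast; exact dvd_mul_right _ _
  have d2 : (Q₂ : ℤ) ∣ ((Q₁ * Q₂ : ℕ) : ℤ) := by push_cast; exact dvd_mul_left _ _
  have hQ : 0 < Q₁ * Q₂ := by positivity
  have f1 : ∀ a b i, (Q₁ : ℤ) ∣ F (a, b) i - a i := by
    intro a b i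
    have : F (a, b) i - a i = (F (a, b) i - comb a b i) + (comb a b i - a i) := by ring
    rw [this]
    exact dvd_add (d1.trans (dvd_emod_sub _ _)) (c1 a b i)
  have f2 : ∀ a b i, (Q₂ : ℤ) ∣ F (a, b) i - b i := by
    intro a b i
    have : F (a, b) i - b i = (F (a, b) i - comb a b i) + (comb a b i - b i) := by ring
    rw [this]
    exact dvd_add (d2.trans (dvd_emod_sub _ _)) (c2 a b i)
  have both : ∀ z : ℤ, (Q₁ : ℤ) ∣ z → (Q₂ : ℤ) ∣ z → ((Q₁ * Q₂ : ℕ) : ℤ) ∣ z := by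
    intro z hz1 hz2
    push_cast
    have hc : IsCoprime (Q₁ : ℤ) (Q₂ : ℤ) := ⟨α, β, hab⟩
    exact hc.mul_dvd hz1 hz2
  have hmaps : ∀ p ∈ solSet Q₁ c ×ˢ solSet Q₂ c, F p ∈ solSet (Q₁ * Q₂) c := by
    rintro ⟨a, b⟩ hp
    simp only [mem_product, solSet, mem_filter] at hp ⊢
    obtain ⟨⟨ha, ⟨u, hu⟩, hac⟩, hb, ⟨v, hv⟩, hbc⟩ := hp
    refine ⟨?_, ⟨comb u v, ?_⟩, ?_⟩
    · rw [mem_resid]
      intro i
      exact ⟨Int.emod_nonneg _ (by exact_mod_cast hQ.ne'), Int.emod_lt_of_pos _ (by exact_mod_cast hQ)⟩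
    · refine both _ ?_ ?_
      · have := dvd_add (dt_congr Q₁ (comb u v) u (F (a, b)) a (c1 u v) (f1 a b)) hu
        simpa using this
      · have := dvd_add (dt_congr Q₂ (comb u v) v (F (a, b)) b (c2 u v) (f2 a b)) hv
        simpa using this
    · refine both _ ?_ ?_
      · have := dvd_add (ev_congr_mod (Q₁ : ℤ) c c (F (a, b)) a (fun m => by simp) (f1 a b)) hac
        simpa using this
      · have := dvd_add (ev_congr_mod (Q₂ : ℤ) c c (F (a, b)) b (fun m => by simp) (f2 a b)) hbc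
        simpa using this
  have hinj : Set.InjOn F ↑(solSet Q₁ c ×ˢ solSet Q₂ c) := by
    rintro ⟨a, b⟩ hp ⟨a', b'⟩ hp' hF
    simp only [coe_product, Set.mem_prod, mem_coe, solSet, mem_filter] at hp hp'
    obtain ⟨⟨ha, -, -⟩, hb, -, -⟩ := hp
    obtain ⟨⟨ha', -, -⟩, hb', -, -⟩ := hp'
    rw [mem_resid] at ha hb ha' hb'
    have e1 : a = a' := by
      funext i
      refine res_eq (ha i) (ha' i) ?_
      have h3 := f1 a b i
      have h4 := f1 a' b' i
      rw [← hF] at h4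
      have : a i - a' i = (F (a, b) i - a' i) - (F (a, b) i - a i) := by ring
      rw [this]; exact dvd_sub h4 h3
    have e2 : b = b' := by
      funext i
      refine res_eq (hb i) (hb' i) ?_
      have h3 := f2 a b i
      have h4 := f2 a' b' i
      rw [← hF] at h4
      have : b i - b' i = (F (a, b) i - b' i) - (F (a, b) i - b i) := by ring
      rw [this]; exact dvd_sub h4 h3
    rw [e1, e2]
  have := Finset.card_le_card_of_injOn F hmaps hinj
  rw [card_product] at this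
  exact this

end Cub.H21
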