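import Pool.Agent.Lib.MP_95ac01_nt.H21.Bez

/-!
# MP_95ac01_nt: DIV
-/

set_option autoImplicit false

namespace Cub.H21

open Finset Cub

theorem div : DivStatement := by
  intro x y hx hy hw
  obtain ⟨u, hu⟩ := hx
  obtain ⟨v, hv⟩ := hy
  obtain ⟨l, hl1, hl2⟩ := exists_form x y
  refine ⟨dt u y ^ 3, ?_, ?_⟩
  · intro c
    rw [← ev_smul_x]
    refine ev_congr_mod _ c c y _ (fun m => by simp) fun i => ?_
    exact parallel_mod _ x y u (by rw [hu]; simp) (fun i j => gd_dvd x y i j) i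
  · intro r s ⟨t, ht⟩
    refine ⟨r • p3 u u u + t • p3 l v v, ?_, ?_⟩
    · rw [ev_add, ev_smul, ev_smul, ev_p3, ev_p3, hu, hl1]; ring
    · rw [ev_add, ev_smul, ev_smul, ev_p3, ev_p3, hl2, hv]
      linear_combination -ht

end Cub.H21
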